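import Pool.Agent.Helper645_PA.Avg
import Pool.Agent.Helper645_PA.Box
import Pool.Agent.Helper645_PA.Stair
import Pool.Agent.Helper645_PA.KBal
import Pool.Agent.Helper645_PA.TypeC
import Pool.Agent.Helper645_PA.TypeD
import Pool.Agent.Helper645_PA.ExcEFG
import Pool.Agent.Helper645_PA.ExcE7
import Pool.Agent.Helper645_PA.ExcE8

/-!
# Orbit averages of antichain sizes in `Δ(1)` (MP_f8f4ef_co, Q1)

For every Cartan matrix `A` of type `A_n`, `B_n`, `C_n`, `D_n`, `E_6`, `E_7`, `E_8`, `F_4`, `G_2` and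
every simple root `α_i`, the average size of the antichains in every orbit of the reverse operator
of `Δ(1)` is `#Δ(1) / (d_1 + 1)`.

Vectors are written in the basis of simple roots, `IsRoot A` is the smallest set of vectors which
contains the simple roots and is stable under the simple reflections of the Cartan matrix `A` (the
matrices are those of Mathlib), so the partial order is the coordinatewise one.
-/

set_option autoImplicit false

namespace Pool.Agent.Results.MP_f8f4ef_co.OrbitAverage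

open Finset Pool.Agent.Helper282_TM Pool.Agent.Helper645_PA

variable {n : ℕ}

/-- `Δ(1)`: the roots with coefficient `1` at the simple root `α_i`. -/
def Delta1 (A : Matrix (Fin n) (Fin n) ℤ) (i : Fin n) : Set (Fin n → ℤ) :=
  {v | IsRoot A v ∧ v i = 1}

/-- The height. -/
def height (v : Fin n → ℤ) : ℤ := ∑ j, v j

/-- The antichains of `D`. -/
def Antichains (D : Finset (Fin n → ℤ)) : Set (Finset (Fin n → ℤ)) :=
  {B | B ⊆ D ∧ IsAntichain (· ≤ ·) (B : Set (Fin n → ℤ))}

open Classical in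
/-- The upper ideal of `D` generated by `B`. -/
noncomputable def upperIdeal (D B : Finset (Fin n → ℤ)) : Finset (Fin n → ℤ) :=
  D.filter fun y => ∃ x ∈ B, x ≤ y

open Classical in
/-- The reverse operator: the maximal elements of the complement of the upper ideal. -/
noncomputable def reverse (D B : Finset (Fin n → ℤ)) : Finset (Fin n → ℤ) :=
  (D \ upperIdeal D B).filter fun x => ∀ y ∈ D \ upperIdeal D B, x ≤ y → y = x

/-- For every simple root `α_i` the set `Δ(1)` is finite and has a greatest height `d₁`, the reverse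
operator is a bijection of the set of antichains of `Δ(1)`, and for every orbit `O` of it the average
size of the antichains in `O` is `#Δ(1) / (d₁ + 1)`. -/
def OrbitAverages (A : Matrix (Fin n) (Fin n) ℤ) : Prop :=
  ∀ i : Fin n, (Delta1 A i).Finite ∧ (∃ d₁ : ℤ, IsGreatest (height '' Delta1 A i) d₁) ∧
    ∀ D : Finset (Fin n → ℤ), (∀ v, v ∈ D ↔ v ∈ Delta1 A i) →
      Set.BijOn (reverse D) (Antichains D) (Antichains D) ∧
      ∀ d₁ : ℤ, IsGreatest (height '' Delta1 A i) d₁ → ∀ B ∈ Antichains D,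
        {C | ∃ t : ℕ, (reverse D)^[t] B = C}.Finite ∧
        ∀ O : Finset (Finset (Fin n → ℤ)), (∀ C, C ∈ O ↔ ∃ t : ℕ, (reverse D)^[t] B = C) →
          (∑ C ∈ O, (C.card : ℚ)) / (O.card : ℚ) = (D.card : ℚ) / ((d₁ : ℚ) + 1)

theorem rev_eq (D B : Finset (Fin n → ℤ)) : rev (fun x y => x ≤ y) D B = reverse D B := by
  classical
  ext x
  rw [mem_rev]
  simp only [reverse, upperIdeal, Finset.mem_filter, Finset.mem_sdiff]
  constructor
  · rintro ⟨h1, h2, h3⟩
    refine ⟨⟨h1, fun h => ?_⟩, fun y hy hxy => h3 y hy.1 (fun a ha h => hy.2 ⟨hy.1, a, ha, h⟩) hxy⟩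
    obtain ⟨_, a, ha, h4⟩ := h
    exact h2 a ha h4
  · rintro ⟨⟨h1, h2⟩, h3⟩
    refine ⟨h1, fun a ha h => h2 ⟨h1, a, ha, h⟩, fun y hy h4 hxy => h3 y ⟨hy, ?_⟩ hxy⟩
    rintro ⟨_, a, ha, h5⟩
    exact h4 a ha h5

theorem anti_iff (D B : Finset (Fin n → ℤ)) :
    Anti (fun x y => x ≤ y) D B ↔ B ∈ Antichains D := by
  unfold Anti Antichains
  simp only [Set.mem_setOf_eq]
  refine and_congr_right fun _ => ?_
  constructor
  · intro h x hx y hy hne hxy
    exact hne (h x hx y hy hxy)
  · intro h x hx y hy hxy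
    by_contra hne
    exact h hx hy hne hxy

theorem averages_of {A : Matrix (Fin n) (Fin n) ℤ} (h : ∀ a, Std A a) : OrbitAverages A := by
  intro i
  obtain ⟨P, hP, d, ⟨v0, hv0, hd⟩, hle, hB⟩ := h i
  have hgr : IsGreatest (height '' Delta1 A i) (d : ℤ) := by
    refine ⟨⟨v0, (hP v0).1 hv0, hd⟩, ?_⟩
    rintro _ ⟨v, hv, rfl⟩
    exact hle v ((hP v).2 hv)
  refine ⟨P.finite_toSet.subset fun v hv => (hP v).2 hv, ⟨d, hgr⟩, fun D hD => ?_⟩
  have hDP : D = P := by
    ext v
    rw [hD, hP]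
    rfl
  subst hDP
  have hrev : ∀ B, reverse D B = rev (fun x y => x ≤ y) D B := fun B => (rev_eq D B).symm
  have hrev' : reverse D = rev (fun x y => x ≤ y) D := funext hrev
  have h1 : ∀ x ∈ D, x ≤ x := fun x _ => le_rfl
  have h2 : ∀ x ∈ D, ∀ y ∈ D, x ≤ y → y ≤ x → x = y := fun x _ y _ h h' => le_antisymm h h'
  have h3 : ∀ x ∈ D, ∀ y ∈ D, ∀ z ∈ D, x ≤ y → y ≤ z → x ≤ z :=
    fun x _ y _ z _ h h' => le_trans h h'
  have hmaps : Set.MapsTo (reverse D) (Antichains D) (Antichains D) := by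
    intro B _
    rw [hrev, ← anti_iff]
    exact rev_anti _ _ _
  have hinj : Set.InjOn (reverse D) (Antichains D) := by
    intro B hB C hC hBC
    rw [hrev, hrev] at hBC
    exact rev_avg_inj _ D h1 h2 h3 B C ((anti_iff D B).2 hB) ((anti_iff D C).2 hC) hBC
  have hfin : (Antichains D).Finite := by
    refine (D.powerset.finite_toSet).subset fun B hB => ?_
    exact Finset.mem_coe.2 (Finset.mem_powerset.2 hB.1)
  refine ⟨⟨hmaps, hinj, ?_⟩, ?_⟩
  · have := (hfin.injOn_iff_bijOn_of_mapsTo hmaps).1 hinj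
    exact this.2.2
  intro d₁ hd₁ B hB
  have hdd : d₁ = d := hd₁.unique hgr
  subst hdd
  have hiter : ∀ t, (reverse D)^[t] B ∈ Antichains D := by
    intro t
    rw [hrev', ← anti_iff]
    exact iter_anti ((anti_iff D B).2 hB) t
  refine ⟨hfin.subset ?_, ?_⟩
  · rintro C ⟨t, rfl⟩
    exact hiter t
  intro O hO
  have key := rev_avg (fun x y => x ≤ y) D (d + 1) (by omega) h1 h2 h3 ‹_› B ((anti_iff D B).2 hB) O
    (by rw [← hrev']; exact hO)
  have hpos : 0 < O.card := Finset.card_pos.2 ⟨B, (hO B).2 ⟨0, rfl⟩⟩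
  have hpos' : (0 : ℚ) < O.card := by exact_mod_cast hpos
  have hd' : (0 : ℚ) < (((d : ℕ) : ℤ) : ℚ) + 1 := by positivity
  rw [div_eq_div_iff hpos'.ne' hd'.ne']
  have key' : ((d : ℚ) + 1) * ∑ C ∈ O, (C.card : ℚ) = (D.card : ℚ) * O.card := by
    exact_mod_cast key
  push_cast
  linarith

/-- In every orbit of the reverse operator on the antichains of `Δ(1)` the average size is
`#Δ(1) / (d₁ + 1)`, for every 1-standard `ℤ`-grading of every simple Lie algebra. -/
theorem result :
    (∀ n, OrbitAverages (CartanMatrix.A n)) ∧ (∀ n, OrbitAverages (CartanMatrix.B n)) ∧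
    (∀ n, OrbitAverages (CartanMatrix.C n)) ∧ (∀ n, 3 ≤ n → OrbitAverages (CartanMatrix.D n)) ∧
    OrbitAverages CartanMatrix.E₆ ∧ OrbitAverages CartanMatrix.E₇ ∧
    OrbitAverages CartanMatrix.E₈ ∧ OrbitAverages CartanMatrix.F₄ ∧
    OrbitAverages CartanMatrix.G₂ :=
  ⟨fun n => averages_of fun a => stdA box_bal n a, fun n => averages_of fun a => stdB box_bal n a,
    fun n => averages_of fun a => stdC box_bal stair_bal n a,
    fun n hn => averages_of fun a => stdD stair_bal K_bal n hn a,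
    averages_of stdE6, averages_of stdE7, averages_of stdE8, averages_of stdF4, averages_of stdG2⟩

end Pool.Agent.Results.MP_f8f4ef_co.OrbitAverage
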